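import Pool.Agent.KF.SHR.Stmts

/-!
# SHR module FA (helper39)
-/

namespace Pool.Agent.KF.SHR

open MvPolynomial

namespace FA_

variable {J : Type}

theorem pow_hom {w : MvPolynomial J ℝ} (hw : w.IsHomogeneous 1) (r : ℕ) :
    (w ^ r).IsHomogeneous r := by
  have := hw.pow r
  rwa [one_mul] at this

theorem add_hom {w : MvPolynomial J ℝ} (hw : w.IsHomogeneous 1) (o : J) (t : ℝ) :
    (w + C t * X o).IsHomogeneous 1 :=
  hw.add (isHomogeneous_C_mul_X t o)

/-- `t ↦ D (p * (w + t x)^m * q)` is continuous. -/
theorem cont (D : MvPolynomial J ℝ →ₗ[ℝ] ℝ) (w x p q : MvPolynomial J ℝ) (m : ℕ) :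
    Continuous (fun t : ℝ => D (p * (w + C t * x) ^ m * q)) := by
  have h : ∀ t : ℝ, D (p * (w + C t * x) ^ m * q) =
      ∑ k ∈ Finset.range (m + 1), t ^ (m - k) * D (p * (w ^ k * x ^ (m - k) * (m.choose k : MvPolynomial J ℝ)) * q) := by
    intro t
    rw [add_pow, Finset.mul_sum, Finset.sum_mul, map_sum]
    refine Finset.sum_congr rfl fun k _ => ?_
    rw [mul_pow, ← C_pow]
    have : p * (w ^ k * (C (t ^ (m - k)) * x ^ (m - k)) * (m.choose k : MvPolynomial J ℝ)) * q
        = (t ^ (m - k)) • (p * (w ^ k * x ^ (m - k) * (m.choose k : MvPolynomial J ℝ)) * q) := by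
      rw [smul_eq_C_mul]
      ring
    rw [this, map_smul, smul_eq_mul]
  simp only [h]
  fun_prop

end FA_

open FA_

theorem t_FA (hFANN : Stmt_FANN) (hFW : Stmt_FW) (hHRC : Stmt_HRC) : Stmt_FA := by
  intro J _ N D0 D1 g s o w Ip Im hF d hd hneg hpos i r hir hiIm hiIp
  have hcard := hF.card
  have hr1 : 1 ≤ r := by omega
  have hwo : ∀ t : ℝ, aeval g (w + C t * X o) = t := by
    intro t
    rw [map_add, hF.wg, map_mul, aeval_X, hF.go]
    simp
  -- the family of functionals
  let D : ℝ → MvPolynomial J ℝ →ₗ[ℝ] ℝ := fun t => if t ≤ 0 then D0 else D1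
  have hD : ∀ t m p q, 1 ≤ m → D t (p * (w + C t * X o) ^ m * q) =
      D0 (p * (w + C t * X o) ^ m * q) + s * (aeval g p * aeval g q) * (max t 0) ^ m := by
    intro t m p q hm
    by_cases ht : t ≤ 0
    · simp only [D, if_pos ht, max_eq_right ht]
      rw [zero_pow (by omega), mul_zero, add_zero]
    · simp only [D, if_neg ht, max_eq_left (le_of_not_ge ht)]
      rw [hF.eq, map_mul (aeval g), map_mul (aeval g), map_pow (aeval g), hwo]
      ring
  have hannI : ∀ i' : ℕ, i' < Im.card → i' < Ip.card → ∀ j, i' + j = N →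
      ∀ t t' : ℝ, ∀ p : MvPolynomial J ℝ, p.IsHomogeneous i' →
      (∀ q : MvPolynomial J ℝ, q.IsHomogeneous j → D t (p * q) = 0) →
      ∀ q : MvPolynomial J ℝ, q.IsHomogeneous j → D t' (p * q) = 0 := by
    intro i' h1 h2 j hij t t' p hp h
    obtain ⟨hA, hB⟩ := hFANN J N D0 D1 g s o w Ip Im hF i' j hij
    have hg : aeval g p = 0 := by
      by_cases ht : t ≤ 0
      · simp only [D, if_pos ht] at h
        exact hA h1 p hp h
      · simp only [D, if_neg ht] at h
        exact hB h2 p hp h
    have h0 : ∀ q : MvPolynomial J ℝ, q.IsHomogeneous j → D0 (p * q) = 0 := by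
      intro q hq
      have := h q hq
      by_cases ht : t ≤ 0
      · simpa only [D, if_pos ht] using this
      · simp only [D, if_neg ht] at this
        rw [hF.eq, map_mul (aeval g), hg] at this
        simpa using this
    intro q hq
    by_cases ht : t' ≤ 0
    · simp only [D, if_pos ht]
      exact h0 q hq
    · simp only [D, if_neg ht]
      rw [hF.eq, map_mul (aeval g), hg, h0 q hq]
      simp
  -- hard Lefschetz in the degrees `i' = i, i - 1`
  have hHLi : ∀ i' r' : ℕ, 2 * i' + r' = N → i' ≤ i → 1 ≤ r' →
      ∀ t ∈ Set.Ioo (-d) d, HLi (D t) i' r' (w + C t * X o) := by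
    intro i' r' hir' hi' hr' t ht
    rcases lt_trichotomy t 0 with h | h | h
    · have : D t = D0 := by simp only [D, if_pos h.le]
      rw [this]
      intro p hp hpq
      have hR := hneg t ht.1 h i' r' hir' p hp (fun k q hk hq => by
        have := hpq ((w + C t * X o) * q) (by
          have := (add_hom hF.w1 o t).mul hq
          convert this using 1
          omega)
        rw [← this]
        congr 1
        ring)
      exact hR.2 (hpq p hp)
    · subst h
      have hw0 : w + C (0:ℝ) * X o = w := by simp
      rw [hw0]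
      have : D 0 = D0 := by simp only [D, le_refl, if_true]
      rw [this]
      obtain ⟨hA, hB⟩ := hFW J N D0 D1 g s o w Ip Im hF i' r' hir'
      by_cases hc : Im.card ≤ i' + r'
      · exact hA hc
      · have hB' := hB (by omega)
        intro p hp hpq q hq
        have h1 : ∀ q : MvPolynomial J ℝ, q.IsHomogeneous (i' + r') → D1 (p * q) = 0 := by
          apply hB' p hp
          intro q hq
          rw [hF.eq, map_mul (aeval g), map_mul (aeval g), map_pow (aeval g), hF.wg,
            zero_pow (by omega), hpq q hq]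
          simp
        have h2 := hannI i' (by omega) (by omega) (i' + r') (by omega) 1 0 p hp (by
          intro q hq
          have : D 1 = D1 := by simp only [D]; rw [if_neg (by norm_num)]
          rw [this]
          exact h1 q hq) q hq
        rwa [this] at h2
    · have : D t = D1 := by simp only [D, if_neg (not_le.2 h)]
      rw [this]
      exact hpos t h ht.2 i' r' hir'
  have key := hHRC J (Set.Ioo (-d) d) D (fun t => w + C t * X o) i r Set.ordConnected_Ioo
    (fun t => add_hom hF.w1 o t)
    (fun m hm p q => by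
      have hm1 : 1 ≤ m := by omega
      have : (fun t => D t (p * (w + C t * X o) ^ m * q)) = fun t =>
          D0 (p * (w + C t * X o) ^ m * q) + s * (aeval g p * aeval g q) * (max t 0) ^ m := by
        funext t
        exact hD t m p q hm1
      rw [this]
      apply Continuous.continuousOn
      exact (cont D0 w (X o) p q m).add (by fun_prop))
    (hHLi i r hir le_rfl hr1)
    (fun t ht k hk => hHLi k (r + 2) (by omega) (by omega) (by omega) t ht)
    (fun t _ t' _ p hp h => hannI i hiIm hiIp (i + r) (by omega) t t' p hp h)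
    (fun k hk t _ t' _ p hp h => hannI k (by omega) (by omega) (i + r + 1) (by omega) t t' p hp h)
    (-d / 2) ⟨by linarith, by linarith⟩
    (by
      have : D (-d / 2) = D0 := by simp only [D]; rw [if_pos (by linarith)]
      rw [this]
      exact hneg (-d / 2) (by linarith) (by linarith) i r hir)
  refine ⟨d, hd, fun t ht htd => ?_⟩
  have h := key t ⟨by linarith, htd⟩
  have : D t = D1 := by simp only [D, if_neg (not_le.2 ht)]
  rwa [this] at h

end Pool.Agent.KF.SHR
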