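import Pool.Agent.KF.SHR.FA

/-!
# SHR module FB (helper39)
-/

namespace Pool.Agent.KF.SHR

open MvPolynomial

namespace FB_

open FA_

variable {J : Type} [Fintype J]

/-- Extension of the Hodge-Riemann relation across `0`. -/
theorem ext (hOPEN : Stmt_OPEN) (hHRC : Stmt_HRC) (D : MvPolynomial J ℝ →ₗ[ℝ] ℝ)
    (w : MvPolynomial J ℝ) (hw : w.IsHomogeneous 1) (o : J) (i r : ℕ) (d : ℝ) (hd : 0 < d)
    (h1 : HLi D i r w) (h2 : ∀ k, k + 1 = i → HLi D k (r + 2) w)
    (hneg : ∀ t : ℝ, -d < t → t < 0 → HRi D i r (w + C t * X o)) :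
    ∃ e : ℝ, 0 < e ∧ ∀ t : ℝ, |t| < e → HRi D i r (w + C t * X o) := by
  obtain ⟨e1, he1, hE1⟩ := hOPEN J D i r w (X o) hw (isHomogeneous_X ℝ o) h1
  obtain ⟨e2, he2, hE2⟩ : ∃ e : ℝ, 0 < e ∧ ∀ t : ℝ, |t| < e → ∀ k, k + 1 = i →
      HLi D k (r + 2) (w + C t * X o) := by
    cases i with
    | zero => exact ⟨1, one_pos, fun t _ k hk => by omega⟩
    | succ k =>
      obtain ⟨e2, he2, hE2⟩ := hOPEN J D k (r + 2) w (X o) hw (isHomogeneous_X ℝ o) (h2 k rfl)
      refine ⟨e2, he2, fun t ht k' hk' => ?_⟩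
      obtain rfl : k' = k := by omega
      exact hE2 t ht
  set e := min d (min e1 e2) with he
  have hepos : 0 < e := lt_min hd (lt_min he1 he2)
  have hed : e ≤ d := min_le_left _ _
  have hee1 : e ≤ e1 := (min_le_right _ _).trans (min_le_left _ _)
  have hee2 : e ≤ e2 := (min_le_right _ _).trans (min_le_right _ _)
  refine ⟨e, hepos, fun t ht => ?_⟩
  have key := hHRC J (Set.Ioo (-e) e) (fun _ => D) (fun t => w + C t * X o) i r
    Set.ordConnected_Ioo (fun t => add_hom hw o t)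
    (fun m _ p q => (cont D w (X o) p q m).continuousOn)
    (fun t ht => hE1 t (lt_of_lt_of_le (abs_lt.2 ht) hee1))
    (fun t ht k hk => hE2 t (lt_of_lt_of_le (abs_lt.2 ht) hee2) k hk)
    (fun t _ t' _ p _ h => h) (fun k _ t _ t' _ p _ h => h)
    (-e / 2) ⟨by linarith, by linarith⟩ (hneg _ (by linarith) (by linarith))
  exact key t (abs_lt.1 ht)

end FB_

open FA_ FB_

theorem t_FB (hFNU : Stmt_FNU) (hFW : Stmt_FW) (hOPEN : Stmt_OPEN) (hHRC : Stmt_HRC)
    (hFEQ : Stmt_FEQ) (hFGT : Stmt_FGT) (hREP : Stmt_REP) (hBD : Stmt_BD) (hFANN : Stmt_FANN) :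
    Stmt_FB := by
  intro J _ N D0 D1 g s o w Ip Im hF d hd hneg hpos i r hir hIm hi
  have him := hF.im_pos
  obtain ⟨k, rfl⟩ : ∃ k, i = k + 1 := ⟨i - 1, by omega⟩
  have hs0 : s ≠ 0 := by
    rintro rfl
    have := hF.sgn
    simp at this
  have hwo : ∀ t : ℝ, aeval g (w + C t * X o) = t := by
    intro t
    rw [map_add, hF.wg, map_mul, aeval_X, hF.go]
    simp
  have hL1 : HLi D0 (k + 1) r w := (hFW J N D0 D1 g s o w Ip Im hF (k + 1) r hir).1 (by omega)
  have hL2 : HLi D0 k (r + 2) w := (hFW J N D0 D1 g s o w Ip Im hF k (r + 2) (by omega)).1 (by omega)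
  obtain ⟨e, he, hE⟩ := ext hOPEN hHRC D0 w hF.w1 o (k + 1) r d hd hL1
    (fun k' hk' => by obtain rfl : k' = k := by omega
                      exact hL2)
    (fun t h1 h2 => hneg t h1 h2 (k + 1) r hir)
  by_cases hk : Im.card ≤ k
  · obtain ⟨v, hv1, hv2, hv3⟩ := (hFNU J N D0 D1 g s o w Ip Im hF k (k + r + 2) (by omega)).1 hk
    refine ⟨e, he, fun t ht hte => ?_⟩
    refine hFGT J D0 D1 g s (w + C t * X o) v k r hF.eq (add_hom hF.w1 o t) ?_ hs0 hv1 hv2 hv3
      (hE t (by rw [abs_of_pos ht]; exact hte))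
    rw [hwo]
    exact ht.ne'
  · have hkc : Im.card = k + 1 := by omega
    let f : MvPolynomial J ℝ →ₗ[ℝ] ℝ := (aeval g).toLinearMap
    have hf : ∀ p, f p = aeval g p := fun p => rfl
    have hcond : ∀ p : MvPolynomial J ℝ, p.IsHomogeneous k →
        (∀ q : MvPolynomial J ℝ, q.IsHomogeneous (k + (r + 2)) → D0 (p * q) = 0) → f p = 0 := by
      intro p hp h
      exact (hFANN J N D0 D1 g s o w Ip Im hF k (k + (r + 2)) (by omega)).1 (by omega) p hp h
    obtain ⟨e2, he2, hE2⟩ := hOPEN J D0 k (r + 2) w (X o) hF.w1 (isHomogeneous_X ℝ o) hL2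
    obtain ⟨e3, b, he3, hb⟩ := hBD J D0 k (r + 2) w (X o) hF.w1 (isHomogeneous_X ℝ o) hL2 f hcond
    set e4 : ℝ := 1 / (|s| * (|b| + 1) + 1) with he4
    have hden : 0 < |s| * (|b| + 1) + 1 := by positivity
    have he4p : 0 < e4 := by positivity
    refine ⟨min (min e e2) (min e3 (min e4 1)), lt_min (lt_min he he2)
      (lt_min he3 (lt_min he4p one_pos)), fun t ht hte => ?_⟩
    have ht1 : t < e := lt_of_lt_of_le hte ((min_le_left _ _).trans (min_le_left _ _))
    have ht2 : t < e2 := lt_of_lt_of_le hte ((min_le_left _ _).trans (min_le_right _ _))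
    have ht3 : t < e3 := lt_of_lt_of_le hte ((min_le_right _ _).trans (min_le_left _ _))
    have ht4 : t < e4 := lt_of_lt_of_le hte
      ((min_le_right _ _).trans ((min_le_right _ _).trans (min_le_left _ _)))
    have ht5 : t < 1 := lt_of_lt_of_le hte
      ((min_le_right _ _).trans ((min_le_right _ _).trans (min_le_right _ _)))
    obtain ⟨z, hz1, hz2⟩ := hREP J D0 k (r + 2) (w + C t * X o) (add_hom hF.w1 o t)
      (hE2 t (by rw [abs_of_pos ht]; exact ht2)) f hcond
    have hbz := hb t (by rw [abs_of_pos ht]; exact ht3) z hz1 hz2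
    refine hFEQ J D0 D1 g s (w + C t * X o) z k r hF.eq (add_hom hF.w1 o t) ?_ hz1
      (fun y hy => hz2 y hy) ?_ ?_ (hE t (by rw [abs_of_pos ht]; exact ht1))
    · rw [hwo]; exact ht
    · have := hF.sgn
      rwa [hkc] at this
    · rw [hwo]
      have h1 : t ^ (r + 2) ≤ t := by
        calc t ^ (r + 2) = t ^ (r + 1) * t := pow_succ _ _
          _ ≤ 1 * t := by
              apply mul_le_mul_of_nonneg_right _ ht.le
              exact pow_le_one₀ ht.le ht5.le
          _ = t := one_mul t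
      have h0 : 0 ≤ t ^ (r + 2) := pow_nonneg ht.le _
      have h2 : |s * t ^ (r + 2) * aeval g z| ≤ |s| * t * |b| := by
        rw [abs_mul, abs_mul, abs_of_nonneg h0]
        have h3 : |aeval g z| ≤ |b| := (hbz.trans (le_abs_self b))
        have h4 : |s| * t ^ (r + 2) ≤ |s| * t := mul_le_mul_of_nonneg_left h1 (abs_nonneg s)
        exact mul_le_mul h4 h3 (abs_nonneg _) (by positivity)
      have h5 : |s| * t * |b| < 1 := by
        have h6 : t * (|s| * (|b| + 1) + 1) < 1 := by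
          have := mul_lt_mul_of_pos_right ht4 hden
          rw [he4, one_div, inv_mul_cancel₀ hden.ne'] at this
          exact this
        have h7 : 0 ≤ |s| := abs_nonneg s
        have h8 : 0 ≤ |b| := abs_nonneg b
        nlinarith [mul_nonneg ht.le h7, mul_nonneg ht.le h8]
      have h9 := (abs_le.1 (h2.trans h5.le)).1
      have h10 := neg_abs_le (s * t ^ (r + 2) * aeval g z)
      linarith [lt_of_le_of_lt h2 h5]

end Pool.Agent.KF.SHR
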