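import Pool.Agent.KF.SHR.FB

/-!
# SHR module FC (helper39)
-/

namespace Pool.Agent.KF.SHR

open MvPolynomial
open FA_ FB_

theorem t_FC (hFNU : Stmt_FNU) (hFW : Stmt_FW) (hOPEN : Stmt_OPEN) (hHRC : Stmt_HRC)
    (hFDN : Stmt_FDN) : Stmt_FC := by
  intro J _ N D0 D1 g s o w Ip Im hF d hd hneg hpos i r hir hIp hi
  have hL1 : HLi D1 i r w := (hFW J N D0 D1 g s o w Ip Im hF i r hir).2 (by omega)
  obtain ⟨v, hv1, hv2, hv3⟩ := (hFNU J N D0 D1 g s o w Ip Im hF i (i + r) (by omega)).2 hi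
  obtain ⟨e, he, hE⟩ := ext hOPEN hHRC D1 w hF.w1 o i r d hd hL1
    (fun k hk => (hFW J N D0 D1 g s o w Ip Im hF k (r + 2) (by omega)).2 (by omega))
    (fun t h1 h2 => hFDN J D0 D1 g s (w + C t * X o) v i r hF.eq (add_hom hF.w1 o t) hv1 hv2 hv3
      (hneg t h1 h2 i r hir))
  exact ⟨e, he, fun t ht hte => hE t (by rw [abs_of_pos ht]; exact hte)⟩

end Pool.Agent.KF.SHR
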