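import Pool.Agent.KF.SHR.Stmts

/-!
# SHR module FLIP (helper39)
-/

namespace Pool.Agent.KF.SHR

open MvPolynomial

theorem t_FLIP (hFA : Stmt_FA) (hFB : Stmt_FB) (hFC : Stmt_FC) : Stmt_FLIP := by
  intro J _ N D0 D1 g s o w Ip Im hF d hd hneg hpos
  have hone : ∀ i r : ℕ, 2 * i + r = N →
      ∃ e : ℝ, 0 < e ∧ ∀ t : ℝ, 0 < t → t < e → HRi D1 i r (w + C t * X o) := by
    intro i r hir
    by_cases h1 : i < Im.card
    · by_cases h2 : i < Ip.card
      · exact hFA J N D0 D1 g s o w Ip Im hF d hd hneg hpos i r hir h1 h2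
      · exact hFC J N D0 D1 g s o w Ip Im hF d hd hneg hpos i r hir (by omega) (by omega)
    · by_cases h2 : Im.card ≤ Ip.card
      · exact hFB J N D0 D1 g s o w Ip Im hF d hd hneg hpos i r hir h2 (by omega)
      · exact hFC J N D0 D1 g s o w Ip Im hF d hd hneg hpos i r hir (by omega) (by omega)
  have hmany : ∀ n : ℕ, ∃ e : ℝ, 0 < e ∧ ∀ t : ℝ, 0 < t → t < e → ∀ i r : ℕ, i < n →
      2 * i + r = N → HRi D1 i r (w + C t * X o) := by
    intro n
    induction n with
    | zero => exact ⟨1, one_pos, fun t _ _ i r h => by omega⟩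
    | succ n ih =>
      obtain ⟨e, he, hE⟩ := ih
      by_cases hn : 2 * n ≤ N
      · obtain ⟨e', he', hE'⟩ := hone n (N - 2 * n) (by omega)
        refine ⟨min e e', lt_min he he', fun t ht hte i r hi hir => ?_⟩
        rcases Nat.lt_succ_iff_lt_or_eq.1 hi with h | h
        · exact hE t ht (lt_of_lt_of_le hte (min_le_left _ _)) i r h hir
        · subst h
          obtain rfl : r = N - 2 * i := by omega
          exact hE' t ht (lt_of_lt_of_le hte (min_le_right _ _))
      · refine ⟨e, he, fun t ht hte i r hi hir => ?_⟩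
        exact hE t ht hte i r (by omega) hir
  obtain ⟨e, he, hE⟩ := hmany (N + 1)
  exact ⟨e, he, fun t ht hte i r hir => hE t ht hte i r (by omega) hir⟩

end Pool.Agent.KF.SHR
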